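import Mathlib

/-! The valuation of `t 17 (16 n + j)` is not a function of the valuation of `n + 1`. -/

namespace Pool.Agent.Results.MP_1a5b88_nt.Counter
open Finset PowerSeries

set_option maxHeartbeats 400000

/-- The `n`-th coefficient of the `m`-th power of the product of all `1 - X ^ 2 ^ i`; later factors do not change it. -/
noncomputable def t (m n : ℕ) : ℤ := coeff n ((∏ i ∈ range (n + 1), (1 - X ^ 2 ^ i : ℤ⟦X⟧)) ^ m)

def step (d : ℕ) (l : List ℤ) : List ℤ := List.zipWith (· - ·) l (List.replicate d 0 ++ l)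

def L : ℕ → List ℤ
  | 0 => 1 :: List.replicate 504 0
  | k + 1 => (step (2 ^ k))^[17] (L k)

def R (A : ℤ⟦X⟧) (l : List ℤ) : Prop := l.length = 505 ∧ ∀ i (h : i < l.length), coeff i A = l[i]

theorem R1 {A : ℤ⟦X⟧} {l : List ℤ} (d : ℕ) (h : R A l) : R (A * (1 - X ^ d)) (step d l) := by
  refine ⟨by simp [step, h.1], fun i hi => ?_⟩
  have h1 : i < l.length := by simp [step] at hi; omega
  simp only [step, List.getElem_zipWith, List.getElem_append, List.length_replicate, List.getElem_replicate, mul_sub, mul_one,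
    map_sub, coeff_mul_X_pow', h.2 i h1]
  split_ifs with h2 h3 h3
  · omega
  · rw [h.2]
  · rfl
  · omega

theorem R2 {A : ℤ⟦X⟧} {l : List ℤ} (d c : ℕ) (h : R A l) : R (A * (1 - X ^ d) ^ c) ((step d)^[c] l) := by
  induction c with
  | zero => simpa using h
  | succ c ih => rw [Function.iterate_succ_apply', pow_succ, ← mul_assoc]; exact R1 d ih

theorem R3 (k : ℕ) : R ((∏ i ∈ range k, (1 - X ^ 2 ^ i : ℤ⟦X⟧)) ^ 17) (L k) := by
  induction k with
  | zero =>
    refine ⟨by rw [L, List.length_cons, List.length_replicate], fun i hi => ?_⟩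
    rcases i with _ | i
    · simp only [L, List.getElem_cons_zero]
      simp
    · simp only [L, List.getElem_cons_succ, List.getElem_replicate]
      simp [coeff_one]
  | succ k ih => rw [prod_range_succ, mul_pow]; exact R2 _ _ ih

theorem R4 (k i : ℕ) (hi : i < 505) : coeff i ((∏ i ∈ range (9 + k), (1 - X ^ 2 ^ i : ℤ⟦X⟧)) ^ 17) = (L 9).getD i 0 := by
  induction k with
  | zero => rw [List.getD_eq_getElem _ _ ((R3 9).1 ▸ hi), ← (R3 9).2]
  | succ k ih =>
    have h : i < 2 ^ (9 + k) := lt_of_lt_of_le (by omega : i < 2 ^ 9) (Nat.pow_le_pow_right two_pos (by omega))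
    rw [← add_assoc, prod_range_succ, mul_pow, ← ih]
    generalize (∏ i ∈ range (9 + k), (1 - X ^ 2 ^ i : ℤ⟦X⟧)) ^ 17 = A
    generalize 17 = c
    induction c with
    | zero => simp
    | succ c ih => rw [pow_succ, ← mul_assoc, mul_sub, mul_one, map_sub, coeff_mul_X_pow', if_neg (by omega), sub_zero, ih]

theorem key : ¬(2 : ℤ) ^ 19 ∣ (L 9).getD 496 0 ∧ (2 : ℤ) ^ 19 ∣ (L 9).getD 504 0 := by decide +kernel

theorem result : ¬∃ A : ℕ → ℕ∞, ∀ n j : ℕ, j < 2 ^ 4 →
    emultiplicity 2 (t (2 ^ 4 + 1) (2 ^ 4 * n + j)) = A (padicValNat 2 (n + 1)) := by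
  rintro ⟨A, h⟩
  have h1 := (h 31 0 (by norm_num)).trans (h 31 8 (by norm_num)).symm
  have e1 : t (2 ^ 4 + 1) (2 ^ 4 * 31 + 0) = (L 9).getD 496 0 := R4 488 496 (by norm_num)
  have e2 : t (2 ^ 4 + 1) (2 ^ 4 * 31 + 8) = (L 9).getD 504 0 := R4 496 504 (by norm_num)
  rw [e1, e2] at h1
  exact key.1 (pow_dvd_of_le_emultiplicity ((le_emultiplicity_of_pow_dvd key.2).trans h1.ge))

end Pool.Agent.Results.MP_1a5b88_nt.Counter
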